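import Mathlib

set_option autoImplicit false

open NumberField

namespace Pool.Agent.Y145.OR

/-- The order of negative discriminant `d` in `ℂ`. -/
noncomputable abbrev Od (d : ℤ) : Subalgebra ℤ ℂ :=
  Algebra.adjoin ℤ ({((d : ℂ) + Complex.I * ((Real.sqrt (-(d : ℝ)) : ℝ) : ℂ)) / 2} : Set ℂ)

/-- the generator -/
noncomputable def w (d : ℤ) : ℂ := ((d : ℂ) + Complex.I * ((Real.sqrt (-(d : ℝ)) : ℝ) : ℂ)) / 2

theorem w_sq (d : ℤ) (hd : d < 0) (hd4 : d % 4 = 0 ∨ d % 4 = 1) :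
    ∃ c : ℤ, 4 * c = d ^ 2 - d ∧ w d * w d = d * w d - c := by
  obtain ⟨c, hc⟩ : ∃ c : ℤ, 4 * c = d ^ 2 - d := by
    rcases hd4 with h | h
    · obtain ⟨k, hk⟩ : ∃ k, d = 4 * k := ⟨d / 4, by omega⟩
      exact ⟨4 * k ^ 2 - k, by rw [hk]; ring⟩
    · obtain ⟨k, hk⟩ : ∃ k, d = 4 * k + 1 := ⟨d / 4, by omega⟩
      exact ⟨4 * k ^ 2 + k, by rw [hk]; ring⟩
  refine ⟨c, hc, ?_⟩
  have hs : ((Real.sqrt (-(d : ℝ)) : ℝ) : ℂ) * ((Real.sqrt (-(d : ℝ)) : ℝ) : ℂ) = -(d : ℂ) := by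
    rw [← Complex.ofReal_mul, Real.mul_self_sqrt]
    · push_cast
      rfl
    · have : (d : ℝ) < 0 := by exact_mod_cast hd
      linarith
  have hc' : (4 : ℂ) * c = (d : ℂ) ^ 2 - d := by exact_mod_cast hc
  have hc'' : (c : ℂ) = ((d : ℂ) ^ 2 - d) / 4 := by
    rw [← hc']; ring
  unfold w
  rw [hc'']
  have hI : Complex.I * Complex.I = -1 := Complex.I_mul_I
  linear_combination (1 / 4 : ℂ) * Complex.I ^ 2 * hs - (d : ℂ) / 4 * hI

theorem w_im (d : ℤ) : (w d).im = Real.sqrt (-(d : ℝ)) / 2 := by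
  unfold w
  simp

theorem w_mem (d : ℤ) : w d ∈ Od d := Algebra.subset_adjoin rfl

/-- every element is `a + b w` -/
theorem rep (d : ℤ) (hd : d < 0) (hd4 : d % 4 = 0 ∨ d % 4 = 1) (x : ℂ) (hx : x ∈ Od d) :
    ∃ a b : ℤ, x = a + b * w d := by
  obtain ⟨c, -, hw⟩ := w_sq d hd hd4
  induction hx using Algebra.adjoin_induction with
  | mem x hx =>
    rw [Set.mem_singleton_iff] at hx
    exact ⟨0, 1, by rw [hx]; simp [w]⟩
  | algebraMap r => exact ⟨r, 0, by simp⟩
  | add x y _ _ hx hy =>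
    obtain ⟨a, b, rfl⟩ := hx
    obtain ⟨a', b', rfl⟩ := hy
    exact ⟨a + a', b + b', by push_cast; ring⟩
  | mul x y _ _ hx hy =>
    obtain ⟨a, b, rfl⟩ := hx
    obtain ⟨a', b', rfl⟩ := hy
    refine ⟨a * a' - b * b' * c, a * b' + a' * b + b * b' * d, ?_⟩
    push_cast
    linear_combination (b : ℂ) * b' * hw

theorem indep (d : ℤ) (hd : d < 0) (a b : ℤ) (h : (a : ℂ) + b * w d = 0) : a = 0 ∧ b = 0 := by
  have h1 := congrArg Complex.im h
  have hs : 0 < Real.sqrt (-(d : ℝ)) := Real.sqrt_pos.2 (by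
    have : (d : ℝ) < 0 := by exact_mod_cast hd
    linarith)
  simp only [Complex.add_im, Complex.mul_im, Complex.intCast_im, Complex.intCast_re, w_im,
    Complex.zero_im, zero_mul, add_zero, zero_add] at h1
  have hb : (b : ℝ) = 0 := by
    rcases mul_eq_zero.1 h1 with h2 | h2
    · exact h2
    · linarith
  have hb' : b = 0 := by exact_mod_cast hb
  subst hb'
  simp only [Int.cast_zero, zero_mul, add_zero] at h
  exact ⟨by exact_mod_cast h, rfl⟩

/-- the linear equivalence with pairs of integers -/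
noncomputable def eqv (d : ℤ) (hd : d < 0) (hd4 : d % 4 = 0 ∨ d % 4 = 1) :
    (Fin 2 → ℤ) ≃ₗ[ℤ] Od d :=
  LinearEquiv.ofBijective
    ({ toFun := fun v => ⟨v 0 + v 1 * w d, by
        refine add_mem (intCast_mem _ _) (mul_mem (intCast_mem _ _) (w_mem d))⟩
       map_add' := fun u v => by
        ext
        simp only [Pi.add_apply]
        push_cast
        ring
       map_smul' := fun m v => by
        ext
        simp only [Pi.smul_apply, smul_eq_mul, RingHom.id_apply]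
        simp only [zsmul_eq_mul]
        push_cast
        ring } : (Fin 2 → ℤ) →ₗ[ℤ] Od d) (by
    constructor
    · rw [← LinearMap.ker_eq_bot, LinearMap.ker_eq_bot']
      intro v hv
      have h1 := congrArg (Subtype.val) hv
      have h2 := indep d hd (v 0) (v 1) h1
      ext i
      fin_cases i
      · exact h2.1
      · exact h2.2
    · rintro ⟨x, hx⟩
      obtain ⟨a, b, rfl⟩ := rep d hd hd4 x hx
      exact ⟨![a, b], Subtype.ext (by simp)⟩)

/-- the basis `1, w` -/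
noncomputable def bas (d : ℤ) (hd : d < 0) (hd4 : d % 4 = 0 ∨ d % 4 = 1) :
    Module.Basis (Fin 2) ℤ (Od d) := Module.Basis.ofEquivFun (eqv d hd hd4).symm

theorem bas_repr (d : ℤ) (hd : d < 0) (hd4 : d % 4 = 0 ∨ d % 4 = 1) (a b : ℤ) (x : Od d)
    (hx : (x : ℂ) = a + b * w d) (i : Fin 2) :
    (bas d hd hd4).repr x i = (![a, b] : Fin 2 → ℤ) i := by
  have h1 : x = eqv d hd hd4 ![a, b] := by
    apply Subtype.ext
    rw [hx]
    change _ = (((![a, b] : Fin 2 → ℤ) 0 : ℤ) : ℂ) + (((![a, b] : Fin 2 → ℤ) 1 : ℤ) : ℂ) * w d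
    simp
  rw [bas, Module.Basis.ofEquivFun_repr_apply, h1, LinearEquiv.symm_apply_apply]

theorem bas_zero (d : ℤ) (hd : d < 0) (hd4 : d % 4 = 0 ∨ d % 4 = 1) :
    bas d hd hd4 0 = 1 := by
  rw [bas, Module.Basis.coe_ofEquivFun]
  apply Subtype.ext
  change (((Pi.single 0 1 : Fin 2 → ℤ) 0 : ℤ) : ℂ) + (((Pi.single 0 1 : Fin 2 → ℤ) 1 : ℤ) : ℂ) * w d
    = 1
  simp

theorem bas_one (d : ℤ) (hd : d < 0) (hd4 : d % 4 = 0 ∨ d % 4 = 1) :
    bas d hd hd4 1 = ⟨w d, w_mem d⟩ := by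
  rw [bas, Module.Basis.coe_ofEquivFun]
  apply Subtype.ext
  change (((Pi.single 1 1 : Fin 2 → ℤ) 0 : ℤ) : ℂ) + (((Pi.single 1 1 : Fin 2 → ℤ) 1 : ℤ) : ℂ) * w d
    = w d
  simp

theorem tr (d : ℤ) (hd : d < 0) (hd4 : d % 4 = 0 ∨ d % 4 = 1) (c a b : ℤ)
    (hw : w d * w d = d * w d - c) (x : Od d) (hx : (x : ℂ) = a + b * w d) :
    Algebra.trace ℤ (Od d) x = 2 * a + b * d := by
  rw [Algebra.trace_eq_matrix_trace (bas d hd hd4), Matrix.trace, Fin.sum_univ_two,
    Matrix.diag_apply, Matrix.diag_apply, Algebra.leftMulMatrix_eq_repr_mul,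
    Algebra.leftMulMatrix_eq_repr_mul, bas_zero, bas_one,
    bas_repr d hd hd4 a b (x * 1) (by simpa using hx) 0,
    bas_repr d hd hd4 (-b * c) (a + b * d) (x * ⟨w d, w_mem d⟩) (by
      change (x : ℂ) * w d = _
      rw [hx]
      push_cast
      linear_combination (b : ℂ) * hw) 1]
  simp
  ring

theorem dis (d : ℤ) (hd : d < 0) (hd4 : d % 4 = 0 ∨ d % 4 = 1) :
    Algebra.discr ℤ (bas d hd hd4) = d := by
  obtain ⟨c, hc, hw⟩ := w_sq d hd hd4
  rw [Algebra.discr_def, Matrix.det_fin_two, Algebra.traceMatrix_apply, Algebra.traceMatrix_apply,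
    Algebra.traceMatrix_apply, Algebra.traceMatrix_apply, Algebra.traceForm_apply,
    Algebra.traceForm_apply, Algebra.traceForm_apply, Algebra.traceForm_apply, bas_zero, bas_one,
    tr d hd hd4 c 1 0 hw (1 * 1) (by simp),
    tr d hd hd4 c (-c) d hw (⟨w d, w_mem d⟩ * ⟨w d, w_mem d⟩) (by
      change w d * w d = _
      rw [hw]
      push_cast
      ring),
    tr d hd hd4 c 0 1 hw (1 * ⟨w d, w_mem d⟩) (by simp),
    tr d hd hd4 c 0 1 hw (⟨w d, w_mem d⟩ * 1) (by simp)]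
  linear_combination (-1 : ℤ) * hc

theorem aux_tower (F : Type) [Field F] [CharZero F] (inst : Algebra ℤ F) :
    @IsScalarTower ℤ ℚ F _ _ inst.toSMul := by
  have : inst = Ring.toIntAlgebra F := Subsingleton.elim _ _
  subst this
  infer_instance

/-- Job OR-A. -/
theorem orA (d : ℤ) (hd : d < 0) (hd4 : d % 4 = 0 ∨ d % 4 = 1)
    (hc : IsIntegrallyClosed (Od d)) :
    ∃ (K : Type) (_ : Field K) (_ : NumberField K), Module.finrank ℚ K = 2 ∧
      NumberField.discr K = d ∧ Nonempty (𝓞 K ≃+* Od d) := by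
  have hfin : Module.Finite ℤ (Od d) := Module.Finite.of_basis (bas d hd hd4)
  have hfree : Module.Free ℤ (Od d) := Module.Free.of_basis (bas d hd hd4)
  have hrk : Module.finrank ℤ (Od d) = 2 := by
    rw [Module.finrank_eq_card_basis (bas d hd hd4)]
    simp
  have htow := aux_tower (FractionRing (Od d)) OreLocalization.instAlgebra
  have hrank : Module.finrank ℚ (FractionRing (Od d)) = 2 := by
    rw [← hrk]
    exact IsFractionRing.finrank_eq ℤ ℚ (Od d) (FractionRing (Od d))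
  have hnf : NumberField (FractionRing (Od d)) :=
    { to_charZero := inferInstance
      to_finiteDimensional := Module.finite_of_finrank_pos (by rw [hrank]; norm_num) }
  refine ⟨FractionRing (Od d), inferInstance, hnf, hrank, ?_, ⟨RingOfIntegers.equiv (Od d)⟩⟩
  let e : (𝓞 (FractionRing (Od d))) ≃+* Od d := RingOfIntegers.equiv (Od d)
  let e' : Od d ≃ₐ[ℤ] (𝓞 (FractionRing (Od d))) := AlgEquiv.ofRingEquiv (f := e.symm) (by simp)
  refine (NumberField.discr_eq_discr _ ((bas d hd hd4).map e'.toLinearEquiv)).symm.trans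
    (Eq.trans ?_ (dis d hd hd4))
  rw [Algebra.discr_eq_discr_of_algEquiv (bas d hd hd4) e']
  congr 1

end Pool.Agent.Y145.OR
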